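import Pool.Agent.W753.CZ.Crouzeix

set_option autoImplicit false

open Polynomial Filter Topology

namespace Pool.Agent.W278.FiveFour

open Pool.Agent.W753.CZ

/-- `|1/2 - z| ≤ |1 - z/2|` for `|z| ≤ 1`. -/
theorem moebius_le (z : ℂ) (hz : ‖z‖ ≤ 1) : ‖(1 / 2 : ℂ) - z‖ ≤ ‖1 - z / 2‖ := by
  have h1 : ‖(1 / 2 : ℂ) - z‖ ^ 2 ≤ ‖1 - z / 2‖ ^ 2 := by
    rw [← Complex.normSq_eq_norm_sq, ← Complex.normSq_eq_norm_sq, Complex.normSq_apply,
      Complex.normSq_apply]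
    have h2 : z.re * z.re + z.im * z.im ≤ 1 := by
      rw [← Complex.normSq_apply, Complex.normSq_eq_norm_sq]
      nlinarith [norm_nonneg z]
    have e1 : ((1 / 2 : ℂ) - z).re = 1 / 2 - z.re := by simp
    have e2 : ((1 / 2 : ℂ) - z).im = - z.im := by simp
    have e3 : ((1 : ℂ) - z / 2).re = 1 - z.re / 2 := by simp
    have e4 : ((1 : ℂ) - z / 2).im = - z.im / 2 := by simp [neg_div]
    rw [e1, e2, e3, e4]
    nlinarith
  exact le_of_sq_le_sq h1 (norm_nonneg _)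

variable {H : Type*} [NormedAddCommGroup H] [InnerProductSpace ℂ H] [CompleteSpace H]

/-- the polynomial `(1/2 - p) ∑_{k<N} (p/2)^k` -/
noncomputable def qN (p : ℂ[X]) (N : ℕ) : ℂ[X] :=
  (C (1 / 2) - p) * ∑ k ∈ Finset.range N, (C (1 / 2) * p) ^ k

theorem qN_mul (p : ℂ[X]) (N : ℕ) :
    qN p N * (1 - C (1 / 2) * p) = (C (1 / 2) - p) * (1 - (C (1 / 2) * p) ^ N) := by
  rw [qN, mul_assoc, mul_comm (∑ k ∈ Finset.range N, (C (1 / 2) * p) ^ k), mul_neg_geom_sum]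

theorem qN_eval (p : ℂ[X]) (N : ℕ) (w : ℂ) (hw : ‖p.eval w‖ ≤ 1) :
    ‖(qN p N).eval w‖ ≤ 1 + (1 / 2) ^ N := by
  set z := p.eval w with hz
  have h1 : (qN p N).eval w * (1 - z / 2) = (1 / 2 - z) * (1 - (z / 2) ^ N) := by
    have := congrArg (fun q : ℂ[X] => q.eval w) (qN_mul p N)
    simp only [eval_mul, eval_sub, eval_one, eval_C, eval_pow] at this
    rw [← hz] at this
    have e : (1 / 2 : ℂ) * z = z / 2 := by ring
    rw [e] at this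
    exact this
  have h2 : 0 < ‖1 - z / 2‖ := by
    have h3 : ‖z / 2‖ ≤ 1 / 2 := by
      rw [norm_div]; simp; linarith
    have h4 : ‖(1 : ℂ)‖ - ‖z / 2‖ ≤ ‖1 - z / 2‖ := norm_sub_norm_le _ _
    rw [norm_one] at h4
    linarith
  have h3 : ‖(qN p N).eval w‖ * ‖1 - z / 2‖ ≤ (1 + (1 / 2) ^ N) * ‖1 - z / 2‖ := by
    rw [← norm_mul, h1, norm_mul, mul_comm]
    gcongr
    · calc ‖1 - (z / 2) ^ N‖ ≤ ‖(1 : ℂ)‖ + ‖(z / 2) ^ N‖ := norm_sub_le _ _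
        _ ≤ 1 + (1 / 2) ^ N := by
            rw [norm_one, norm_pow, norm_div]
            have : ‖z‖ / ‖(2 : ℂ)‖ ≤ 1 / 2 := by simp; linarith
            gcongr
    · exact moebius_le z hw
  exact le_of_mul_le_mul_right h3 h2

/-- `‖(1/2 - T) u‖ ≤ 2 ‖(1 - T/2) u‖` for `T = p(A)`. -/
theorem moebius_op [Nontrivial H] (A : H →L[ℂ] H) (p : ℂ[X])
    (hp : ∀ w ∈ numRange A, ‖p.eval w‖ ≤ 1) (u : H) :
    ‖(1 / 2 : ℂ) • u - aeval A p u‖ ≤ 2 * ‖u - (1 / 2 : ℂ) • aeval A p u‖ := by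
  set T := aeval A p with hT
  set v := u - (1 / 2 : ℂ) • T u with hv
  have hTN : ∀ N : ℕ, ‖T ^ N‖ ≤ 2 := by
    intro N
    have := crouzeix_bound A (p ^ N) 1 (fun w hw => by
      rw [eval_pow, norm_pow]; exact pow_le_one₀ (norm_nonneg _) (hp w hw))
    rw [map_pow, ← hT] at this
    linarith
  have hQ : ∀ N : ℕ, ‖aeval A (qN p N)‖ ≤ 2 * (1 + (1 / 2) ^ N) := fun N =>
    crouzeix_bound A (qN p N) _ (fun w hw => qN_eval p N w (hp w hw))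
  have key : ∀ N : ℕ, ‖(1 / 2 : ℂ) • u - T u‖ ≤
      2 * ‖v‖ + (1 / 2) ^ N * (2 * ‖v‖ + 5 * ‖u‖) := by
    intro N
    have h1 : aeval A (qN p N) v = (1 / 2 : ℂ) • u - T u -
        ((1 / 2 : ℂ) ^ N) • (((1 / 2 : ℂ) • (1 : H →L[ℂ] H) - T) ((T ^ N) u)) := by
      have h2 := congrArg (fun q : ℂ[X] => (aeval A q) u) (qN_mul p N)
      have e1 : ∀ f g : H →L[ℂ] H, (f * g) u = f (g u) := fun _ _ => rfl
      simp only [map_mul, map_sub, map_one, map_pow, aeval_C, ← hT] at h2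
      rw [e1] at h2
      have e2 : (1 - (algebraMap ℂ (H →L[ℂ] H)) (1 / 2) * T) u = v := by
        rw [hv]
        simp [Algebra.algebraMap_eq_smul_one]
      rw [e2] at h2
      rw [h2]
      rw [Algebra.algebraMap_eq_smul_one, smul_mul_assoc, one_mul, _root_.smul_pow, mul_sub, mul_one]
      have e3 : (((1 / 2 : ℂ) • (1 : H →L[ℂ] H) - T) * ((1 / 2 : ℂ) ^ N • T ^ N)) u =
          ((1 / 2 : ℂ) ^ N) • (((1 / 2 : ℂ) • (1 : H →L[ℂ] H) - T) ((T ^ N) u)) := by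
        rw [mul_smul_comm]; rfl
      have e4 : ∀ f g : H →L[ℂ] H, (f - g) u = f u - g u := fun _ _ => rfl
      rw [e4, e4, e3]
      rfl
    have h3 : (1 / 2 : ℂ) • u - T u = aeval A (qN p N) v +
        ((1 / 2 : ℂ) ^ N) • (((1 / 2 : ℂ) • (1 : H →L[ℂ] H) - T) ((T ^ N) u)) := by
      rw [h1]; abel
    rw [h3]
    have h4 : ‖aeval A (qN p N) v‖ ≤ 2 * (1 + (1 / 2) ^ N) * ‖v‖ :=
      ((aeval A (qN p N)).le_opNorm v).trans (by gcongr; exact hQ N)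
    have h5 : ‖((1 / 2 : ℂ) • (1 : H →L[ℂ] H) - T)‖ ≤ 5 / 2 := by
      calc ‖((1 / 2 : ℂ) • (1 : H →L[ℂ] H) - T)‖ ≤ ‖(1 / 2 : ℂ) • (1 : H →L[ℂ] H)‖ + ‖T‖ :=
            norm_sub_le _ _
        _ ≤ 1 / 2 + 2 := by
            gcongr
            · rw [norm_smul, norm_one]; simp
            · simpa using hTN 1
        _ = 5 / 2 := by norm_num
    have h6 : ‖((1 / 2 : ℂ) ^ N) • (((1 / 2 : ℂ) • (1 : H →L[ℂ] H) - T) ((T ^ N) u))‖ ≤
        (1 / 2) ^ N * (5 / 2 * (2 * ‖u‖)) := by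
      rw [norm_smul, norm_pow]
      have : ‖(1 / 2 : ℂ)‖ = 1 / 2 := by simp
      rw [this]
      gcongr
      refine (((1 / 2 : ℂ) • (1 : H →L[ℂ] H) - T).le_opNorm _).trans ?_
      gcongr
      refine ((T ^ N).le_opNorm u).trans ?_
      gcongr
      exact hTN N
    calc _ ≤ 2 * (1 + (1 / 2) ^ N) * ‖v‖ + (1 / 2) ^ N * (5 / 2 * (2 * ‖u‖)) :=
          (norm_add_le _ _).trans (add_le_add h4 h6)
      _ = _ := by ring
  have hlim : Tendsto (fun N : ℕ => 2 * ‖v‖ + (1 / 2 : ℝ) ^ N * (2 * ‖v‖ + 5 * ‖u‖)) atTop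
      (𝓝 (2 * ‖v‖ + 0 * (2 * ‖v‖ + 5 * ‖u‖))) := by
    apply Tendsto.const_add
    apply Tendsto.mul_const
    exact tendsto_pow_atTop_nhds_zero_of_lt_one (by norm_num) (by norm_num)
  rw [zero_mul, add_zero] at hlim
  exact ge_of_tendsto' hlim key

/-- real part version -/
theorem re_le [Nontrivial H] (A : H →L[ℂ] H) (p : ℂ[X])
    (hp : ∀ w ∈ numRange A, ‖p.eval w‖ ≤ 1) (u : H) (hu : ‖u‖ = 1) :
    (inner ℂ u (aeval A p u)).re ≤ 5 / 4 := by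
  have h := moebius_op A p hp u
  set y := aeval A p u with hy
  have h2 : ‖(1 / 2 : ℂ) • u - y‖ ^ 2 ≤ (2 * ‖u - (1 / 2 : ℂ) • y‖) ^ 2 := by gcongr
  rw [mul_pow] at h2
  have e1 := norm_sub_sq (𝕜 := ℂ) ((1 / 2 : ℂ) • u) y
  have e2 := norm_sub_sq (𝕜 := ℂ) u ((1 / 2 : ℂ) • y)
  rw [inner_smul_left, norm_smul] at e1
  rw [inner_smul_right, norm_smul] at e2
  have e3 : ‖(1 / 2 : ℂ)‖ = 1 / 2 := by simp
  have e4 : (starRingEnd ℂ) (1 / 2 : ℂ) = ((1 / 2 : ℝ) : ℂ) := by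
    rw [map_div₀, map_one, map_ofNat]; push_cast; rfl
  have e5 : (1 / 2 : ℂ) = ((1 / 2 : ℝ) : ℂ) := by push_cast; rfl
  rw [e3, e4, RCLike.re_eq_complex_re, Complex.re_ofReal_mul] at e1
  rw [e3, RCLike.re_eq_complex_re] at e2
  have e6 : ((1 / 2 : ℂ) * inner ℂ u y).re = 1 / 2 * (inner ℂ u y).re := by
    rw [e5, Complex.re_ofReal_mul]
  rw [e6] at e2
  rw [e1, e2, hu] at h2
  nlinarith

/-- **The `5/4` theorem.** -/
theorem five_four [Nontrivial H] (A : H →L[ℂ] H) (p : ℂ[X])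
    (hp : ∀ w ∈ numRange A, ‖p.eval w‖ ≤ 1) (u : H) (hu : ‖u‖ = 1) :
    ‖inner ℂ u (aeval A p u)‖ ≤ 5 / 4 := by
  set t := inner ℂ u (aeval A p u) with ht
  by_cases h0 : t = 0
  · rw [h0]; norm_num
  set c : ℂ := (‖t‖ : ℂ) / t with hc
  have hcn : ‖c‖ = 1 := by
    rw [hc, norm_div, Complex.norm_real, norm_norm, div_self (norm_ne_zero_iff.mpr h0)]
  have h1 := re_le A (C c * p) (fun w hw => by
    rw [eval_mul, eval_C, norm_mul, hcn, one_mul]; exact hp w hw) u hu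
  rw [map_mul, aeval_C, Algebra.algebraMap_eq_smul_one, smul_mul_assoc, one_mul,
    _root_.smul_apply, inner_smul_right, ← ht, hc, div_mul_cancel₀ _ h0,
    Complex.ofReal_re] at h1
  exact h1

end Pool.Agent.W278.FiveFour
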